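import Pool.Agent.Q256.KZ.Base

/-! Project KZ: weights in long sums (Euler product). -/

set_option autoImplicit false

namespace Pool.Agent.Q256.KZ

open Finset
open scoped Classical
open Pool.Agent.Q18.KZ

/-- the summand -/
noncomputable def gg (L : Finset ℕ) (n : ℕ) : ℝ := Real.sqrt (QL L n) / n

lemma gg_one (L : Finset ℕ) : gg L 1 = 1 := by simp [gg, QL_one]

lemma gg_nonneg (L : Finset ℕ) (n : ℕ) : 0 ≤ gg L n := by unfold gg; positivity

lemma gg_mul (L : Finset ℕ) {m n : ℕ} (h : Nat.Coprime m n) : gg L (m * n) = gg L m * gg L n := by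
  unfold gg
  rw [QL_mul L h, Real.sqrt_mul (QL_pos L m).le, Nat.cast_mul, mul_div_mul_comm]

lemma QL_prime_pow (L : Finset ℕ) {p : ℕ} (hp : p.Prime) {e : ℕ} (he : e ≠ 0) :
    QL L (p ^ e) = qf L p e := by
  rw [QL_eq, Nat.primeFactors_prime_pow he hp, prod_singleton, hp.factorization_pow]
  simp

/-- the ratio -/
noncomputable def rr (p : ℕ) : ℝ := 1 / Real.sqrt p

lemma rr_pos {p : ℕ} (hp : p.Prime) : 0 < rr p := by
  have : (0 : ℝ) < p := by exact_mod_cast hp.pos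
  unfold rr; positivity

lemma rr_lt {p : ℕ} (hp : p.Prime) : rr p < 1 := by
  have : (1 : ℝ) < p := by exact_mod_cast hp.one_lt
  unfold rr
  rw [div_lt_one (by positivity)]
  exact Real.lt_sqrt_of_sq_lt (by simpa using this)

lemma rr_sq (p : ℕ) : rr p ^ 2 = 1 / p := by
  unfold rr
  rw [div_pow, Real.sq_sqrt (Nat.cast_nonneg _), one_pow]

lemma gg_in {L : Finset ℕ} {p : ℕ} (hp : p.Prime) (hL : p ∈ L) (e : ℕ) : gg L (p ^ e) = rr p ^ e := by
  rcases Nat.eq_zero_or_pos e with h | h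
  · subst h; simp [gg_one]
  have h0 : (0 : ℝ) < p := by exact_mod_cast hp.pos
  obtain ⟨s, hs, hs2⟩ : ∃ s : ℝ, 0 < s ∧ (p : ℝ) = s ^ 2 :=
    ⟨Real.sqrt p, Real.sqrt_pos.2 h0, (Real.sq_sqrt h0.le).symm⟩
  rw [gg, QL_prime_pow L hp h.ne', qf, if_pos hL, rr, Nat.cast_pow, hs2, Real.sqrt_sq hs.le,
    ← pow_mul, mul_comm 2 e, pow_mul, Real.sqrt_sq (by positivity), div_pow, one_pow]
  field_simp

lemma gg_out {L : Finset ℕ} {p : ℕ} (hp : p.Prime) (hL : p ∉ L) (e : ℕ) :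
    gg L (p ^ (e + 1)) = rr p ^ 2 * rr p ^ e := by
  have h0 : (0 : ℝ) < p := by exact_mod_cast hp.pos
  obtain ⟨s, hs, hs2⟩ : ∃ s : ℝ, 0 < s ∧ (p : ℝ) = s ^ 2 :=
    ⟨Real.sqrt p, Real.sqrt_pos.2 h0, (Real.sq_sqrt h0.le).symm⟩
  rw [gg, QL_prime_pow L hp (Nat.succ_ne_zero e), qf, if_neg hL, rr, Nat.cast_pow, hs2,
    Real.sqrt_sq hs.le, Nat.succ_sub_one, ← pow_mul, mul_comm 2 e, pow_mul, Real.sqrt_sq (by positivity),
    div_pow, div_pow, one_pow, one_pow]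
  field_simp
  ring

lemma gg_sum_in {L : Finset ℕ} {p : ℕ} (hp : p.Prime) (hL : p ∈ L) :
    Summable (fun e : ℕ => gg L (p ^ e)) ∧ ∑' e : ℕ, gg L (p ^ e) = (1 - rr p)⁻¹ := by
  simp_rw [gg_in hp hL]
  exact ⟨summable_geometric_of_lt_one (rr_pos hp).le (rr_lt hp),
    tsum_geometric_of_lt_one (rr_pos hp).le (rr_lt hp)⟩

lemma gg_sum_out {L : Finset ℕ} {p : ℕ} (hp : p.Prime) (hL : p ∉ L) :
    Summable (fun e : ℕ => gg L (p ^ e)) ∧
      ∑' e : ℕ, gg L (p ^ e) = 1 + rr p ^ 2 * (1 - rr p)⁻¹ := by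
  have h1 : HasSum (fun e : ℕ => gg L (p ^ (e + 1))) (rr p ^ 2 * (1 - rr p)⁻¹) := by
    simp_rw [gg_out hp hL]
    exact (hasSum_geometric_of_lt_one (rr_pos hp).le (rr_lt hp)).mul_left _
  have h2 : Summable (fun e : ℕ => gg L (p ^ e)) := (summable_nat_add_iff 1).1 h1.summable
  refine ⟨h2, ?_⟩
  rw [h2.tsum_eq_zero_add, h1.tsum_eq, pow_zero, gg_one]

lemma gg_summable (L : Finset ℕ) {p : ℕ} (hp : p.Prime) : Summable (fun e : ℕ => ‖gg L (p ^ e)‖) := by
  have h : (fun e : ℕ => ‖gg L (p ^ e)‖) = fun e : ℕ => gg L (p ^ e) := by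
    funext e
    exact Real.norm_of_nonneg (gg_nonneg _ _)
  rw [h]
  by_cases hL : p ∈ L
  · exact (gg_sum_in hp hL).1
  · exact (gg_sum_out hp hL).1

/-- exponent of the local factor -/
noncomputable def hx (L : Finset ℕ) (p : ℕ) : ℝ := (if p ∈ L then 2 * rr p else 0) + 2 / p

lemma hx_nonneg (L : Finset ℕ) {p : ℕ} (hp : p.Prime) : 0 ≤ hx L p := by
  have := rr_pos hp
  unfold hx
  split_ifs <;> positivity

lemma local_le (L : Finset ℕ) {p : ℕ} (hp : p.Prime) (h4 : 4 ≤ p) :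
    ∑' e : ℕ, gg L (p ^ e) ≤ Real.exp (hx L p) := by
  have h0 := rr_pos hp
  have h1 : rr p ≤ 1 / 2 := by
    have h5 : rr p ^ 2 ≤ (1 / 2) ^ 2 := by
      rw [rr_sq]
      have : (4 : ℝ) ≤ p := by exact_mod_cast h4
      rw [div_le_iff₀ (by linarith)]
      linarith
    by_contra hc
    push Not at hc
    nlinarith
  have h2 : (1 - rr p)⁻¹ ≤ 1 + 2 * rr p := by
    rw [inv_le_comm₀ (by linarith) (by linarith), inv_le_iff_one_le_mul₀ (by linarith)]
    nlinarith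
  have h3 : (1 - rr p)⁻¹ ≤ 2 := by
    rw [inv_le_comm₀ (by linarith) (by norm_num)]
    norm_num; linarith
  have hp0 : (0 : ℝ) < p := by exact_mod_cast hp.pos
  refine le_trans ?_ (Real.add_one_le_exp _)
  by_cases hL : p ∈ L
  · rw [(gg_sum_in hp hL).2, hx, if_pos hL]
    have : (0 : ℝ) < 2 / p := by positivity
    linarith
  · rw [(gg_sum_out hp hL).2, hx, if_neg hL, rr_sq]
    have : 1 / (p : ℝ) * (1 - rr p)⁻¹ ≤ 1 / p * 2 := mul_le_mul_of_nonneg_left h3 (by positivity)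
    have h6 : (1 : ℝ) / p * 2 = 2 / p := by ring
    linarith

/-- the primes `≥ z` up to `N` -/
noncomputable def pr (z N : ℕ) : Finset ℕ := (range (N + 1)).filter fun p => p.Prime ∧ z ≤ p

lemma sum_le_exp (L : Finset ℕ) {z N : ℕ} (hz : 4 ≤ z) (A : Finset ℕ)
    (hA : ∀ n ∈ A, n ≠ 0 ∧ n ≤ N ∧ ∀ p : ℕ, p.Prime → p ∣ n → z ≤ p) :
    ∑ n ∈ A, gg L n ≤ Real.exp (∑ p ∈ pr z N, hx L p) := by
  have hmem : ∀ n ∈ A, n ∈ Nat.factoredNumbers (pr z N) := by
    intro n hn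
    obtain ⟨h0, h1, h2⟩ := hA n hn
    rw [Nat.mem_factoredNumbers']
    intro p hp hpn
    rw [pr, mem_filter, mem_range]
    exact ⟨by have := Nat.le_of_dvd (Nat.pos_of_ne_zero h0) hpn; omega, hp, h2 p hp hpn⟩
  obtain ⟨_, h2⟩ := EulerProduct.summable_and_hasSum_factoredNumbers_prod_filter_prime_tsum
    (gg_one L) (fun {m n} h => gg_mul L h) (fun {p} hp => gg_summable L hp) (pr z N)
  have h3 : ∑ n ∈ A, gg L n ≤ ∏ p ∈ (pr z N).filter Nat.Prime, ∑' e : ℕ, gg L (p ^ e) := by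
    rw [← Finset.sum_subtype_of_mem (gg L) hmem]
    exact sum_le_hasSum _ (fun _ _ => gg_nonneg _ _) h2
  refine h3.trans ?_
  have h4 : (pr z N).filter Nat.Prime = pr z N := by
    apply Finset.filter_true_of_mem
    intro p hp
    rw [pr, mem_filter] at hp
    exact hp.2.1
  rw [h4, Real.exp_sum]
  refine Finset.prod_le_prod (fun p _ => tsum_nonneg fun e => gg_nonneg _ _) (fun p hp => ?_)
  rw [pr, mem_filter] at hp
  exact local_le L hp.2.1 (by omega)

/-- Chebyshev's bound -/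
lemma card_dyadic (u : ℕ) :
    u * ((range (2 ^ (u + 1))).filter fun p => p.Prime ∧ 2 ^ u ≤ p).card ≤ 4 * 2 ^ u := by
  have h1 : (2 ^ u) ^ ((range (2 ^ (u + 1))).filter fun p => p.Prime ∧ 2 ^ u ≤ p).card ≤
      4 ^ (2 ^ (u + 1)) := by
    refine le_trans ?_ (primorial_le_four_pow (2 ^ (u + 1)))
    rw [primorial, ← Finset.prod_const]
    refine (Finset.prod_le_prod' (fun p hp => (mem_filter.1 hp).2.2)).trans ?_
    refine Finset.prod_le_prod_of_subset_of_one_le' ?_ ?_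
    · intro p hp
      rw [mem_filter, mem_range] at hp ⊢
      exact ⟨by omega, hp.2.1⟩
    · intro p hp _
      exact (mem_filter.1 hp).2.one_le
  rw [← pow_mul, show (4 : ℕ) = 2 ^ 2 by norm_num, ← pow_mul] at h1
  have h2 := (Nat.pow_le_pow_iff_right (by norm_num : 1 < 2)).1 h1
  calc _ ≤ 2 * 2 ^ (u + 1) := h2
    _ = 4 * 2 ^ u := by ring

lemma sum_inv_pr {m t : ℕ} (hm : 1 ≤ m) :
    ∑ p ∈ pr (2 ^ m) (2 ^ t), 2 / (p : ℝ) ≤ 8 * ((t : ℝ) + 1) / m := by
  have hm0 : (0 : ℝ) < m := by exact_mod_cast hm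
  have h1 : ∀ p ∈ pr (2 ^ m) (2 ^ t), Nat.log 2 p ∈ (range (t + 1)).filter (fun u => m ≤ u) := by
    intro p hp
    rw [pr, mem_filter, mem_range] at hp
    rw [mem_filter, mem_range]
    have h2 : p ≤ 2 ^ t := by omega
    refine ⟨?_, ?_⟩
    · have := Nat.log_mono_right (b := 2) h2
      rw [Nat.log_pow (by norm_num)] at this
      omega
    · have := Nat.log_mono_right (b := 2) hp.2.2
      rw [Nat.log_pow (by norm_num)] at this
      exact this
  rw [← Finset.sum_fiberwise_of_maps_to h1]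
  have h2 : ∀ u ∈ (range (t + 1)).filter (fun u => m ≤ u),
      ∑ p ∈ (pr (2 ^ m) (2 ^ t)).filter (fun p => Nat.log 2 p = u), 2 / (p : ℝ) ≤ 8 / m := by
    intro u hu
    rw [mem_filter] at hu
    have hu1 : (m : ℝ) ≤ u := by exact_mod_cast hu.2
    have hu0 : (0 : ℝ) < u := by linarith
    have h3 : ∀ p ∈ (pr (2 ^ m) (2 ^ t)).filter (fun p => Nat.log 2 p = u),
        2 / (p : ℝ) ≤ 2 / (2 : ℝ) ^ u := by
      intro p hp
      rw [mem_filter, pr, mem_filter] at hp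
      have h4 : 2 ^ u ≤ p := by
        rw [← hp.2]; exact Nat.pow_log_le_self 2 hp.1.2.1.ne_zero
      have h5 : (2 : ℝ) ^ u ≤ p := by exact_mod_cast h4
      exact div_le_div_of_nonneg_left (by norm_num) (by positivity) h5
    refine (Finset.sum_le_card_nsmul _ _ _ h3).trans ?_
    have h6 : (((pr (2 ^ m) (2 ^ t)).filter (fun p => Nat.log 2 p = u)).card : ℝ) ≤
        ((range (2 ^ (u + 1))).filter fun p => p.Prime ∧ 2 ^ u ≤ p).card := by
      norm_cast
      refine Finset.card_le_card ?_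
      intro p hp
      rw [mem_filter, pr, mem_filter] at hp
      rw [mem_filter, mem_range]
      refine ⟨?_, hp.1.2.1, ?_⟩
      · rw [← hp.2]; exact Nat.lt_pow_succ_log_self (by norm_num) p
      · rw [← hp.2]; exact Nat.pow_log_le_self 2 hp.1.2.1.ne_zero
    have h7 : (u : ℝ) * ((range (2 ^ (u + 1))).filter fun p => p.Prime ∧ 2 ^ u ≤ p).card ≤
        4 * 2 ^ u := by exact_mod_cast card_dyadic u
    rw [nsmul_eq_mul, mul_div_assoc', div_le_div_iff₀ (by positivity) hm0]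
    have h8 : (m : ℝ) * ((pr (2 ^ m) (2 ^ t)).filter (fun p => Nat.log 2 p = u)).card ≤
        4 * 2 ^ u :=
      (mul_le_mul hu1 h6 (Nat.cast_nonneg _) hu0.le).trans h7
    linarith
  refine (Finset.sum_le_card_nsmul _ _ _ h2).trans ?_
  rw [nsmul_eq_mul, mul_div_assoc', mul_comm _ (8 : ℝ)]
  have h9 : (((range (t + 1)).filter (fun u => m ≤ u)).card : ℝ) ≤ t + 1 := by
    have := Finset.card_filter_le (range (t + 1)) (fun u => m ≤ u)
    rw [card_range] at this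
    exact_mod_cast this
  gcongr

lemma sum_in_pr (L : Finset ℕ) (z N : ℕ) :
    ∑ p ∈ pr z N, (if p ∈ L then 2 * rr p else 0) ≤ 2 * L.card := by
  rw [← Finset.sum_filter]
  have h1 : ∀ p ∈ (pr z N).filter (· ∈ L), 2 * rr p ≤ 2 := by
    intro p hp
    rw [mem_filter, pr, mem_filter] at hp
    have := (rr_lt hp.1.2.1).le
    linarith
  refine (Finset.sum_le_card_nsmul _ _ _ h1).trans ?_
  rw [nsmul_eq_mul, mul_comm]
  have : (((pr z N).filter (· ∈ L)).card : ℝ) ≤ L.card := by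
    norm_cast
    exact Finset.card_le_card fun p hp => (mem_filter.1 hp).2
  linarith

theorem t_RCH : S_RCH := by
  intro ε k hε
  obtain ⟨M, hM⟩ := exists_nat_gt ((64 + 16 * (k : ℝ)) / (ε * Real.log 2))
  have hl2 : 0 < Real.log 2 := Real.log_pos (by norm_num)
  have hM0 : (0 : ℝ) < M := lt_of_le_of_lt (by positivity) hM
  refine ⟨20 * M + 20, ?_⟩
  intro j hj i t hij hti L hL hLc
  have hj10 : 2 * M + 2 ≤ j / 10 := by omega
  have hi1 : 1 ≤ i := by omega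
  have hz : 4 ≤ 2 ^ (j / 10) := by
    calc 4 = 2 ^ 2 := by norm_num
      _ ≤ 2 ^ (j / 10) := Nat.pow_le_pow_right (by norm_num) (by omega)
  have h1 := sum_le_exp L (N := 2 ^ t) hz ((Icc 1 (2 ^ t)).filter (Rg j)) (by
    intro n hn
    rw [mem_filter, mem_Icc] at hn
    exact ⟨by omega, hn.1.2, hn.2.2⟩)
  have h2 : ∑ n ∈ (Icc 1 (2 ^ t)).filter (Rg j), Real.sqrt (QL L n) / n =
    ∑ n ∈ (Icc 1 (2 ^ t)).filter (Rg j), gg L n := rfl
  rw [h2]
  refine h1.trans ?_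
  rw [← Real.exp_log (show (0 : ℝ) < 2 by norm_num), ← Real.exp_mul]
  apply Real.exp_le_exp.2
  have h3 : ∑ p ∈ pr (2 ^ (j / 10)) (2 ^ t), hx L p ≤
      2 * L.card + 8 * ((t : ℝ) + 1) / ((j / 10 : ℕ) : ℝ) := by
    simp only [hx, sum_add_distrib]
    exact add_le_add (sum_in_pr L _ _) (sum_inv_pr (by omega))
  refine h3.trans ?_
  have hi0 : (1 : ℝ) ≤ i := by exact_mod_cast hi1
  have ht : (t : ℝ) ≤ i := by exact_mod_cast hti
  have hjM : (2 * (M : ℝ)) ≤ ((j / 10 : ℕ) : ℝ) := by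
    have : 2 * M ≤ j / 10 := by omega
    exact_mod_cast this
  have hjM' : (M : ℝ) ≤ j := by
    have : M ≤ j := by omega
    exact_mod_cast this
  have h4 : 8 * ((t : ℝ) + 1) / ((j / 10 : ℕ) : ℝ) ≤ 8 * i / M := by
    rw [div_le_div_iff₀ (by linarith) hM0]
    have : (8 * ((t : ℝ) + 1)) * M ≤ 8 * (2 * i) * M := by gcongr; linarith
    nlinarith
  have h5 : (2 : ℝ) * L.card ≤ 4 * k * i / M := by
    rw [le_div_iff₀ hM0]
    have h6 : (L.card : ℝ) * M ≤ L.card * j := by gcongr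
    have h7 : (k : ℝ) * (i + 1) ≤ k * (2 * i) := by gcongr; linarith
    nlinarith
  have h8 : (64 + 16 * (k : ℝ)) < M * (ε * Real.log 2) := by
    rwa [div_lt_iff₀ (by positivity)] at hM
  have h9 : 8 * (i : ℝ) / M + 4 * k * i / M ≤ Real.log 2 * (ε * i) := by
    rw [← add_div, div_le_iff₀ hM0]
    have h10 : (8 + 4 * (k : ℝ)) * i ≤ (M * (ε * Real.log 2)) * i := by
      gcongr
      have : (0 : ℝ) ≤ k := Nat.cast_nonneg k
      linarith
    linarith
  linarith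

end Pool.Agent.Q256.KZ
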