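import Pool.Agent.Q256.KZ.Base

/-! Project KZ: the counting inequality with an L-part. -/

set_option autoImplicit false

namespace Pool.Agent.Q256.KZ

open Finset
open scoped Classical
open Pool.Agent.Q18.KZ

/-- one value of the `L`-part -/
lemma rcl_fibre {C ε : ℝ} (hC1 : 1 ≤ C) (hε : 0 < ε)
    (hC : ∀ (y x L : ℕ), 1 ≤ y → y ≤ x → x ≤ 8 * y → L ^ 2 ≤ y →
      ∑ n ∈ Ioc x (x + L), Real.sqrt ((n : ℝ) / rd n) ≤ C * (y : ℝ) ^ (1 / 2 + ε))
    {i a b l : ℕ} (h1 : 2 ^ i ≤ a) (h2 : a ≤ b) (h3 : b ≤ 2 ^ (i + 2))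
    (h4 : (b : ℝ) - a ≤ (2 : ℝ) ^ ((i : ℝ) / 2)) (hl : 1 ≤ l) (hlb : l ≤ b) :
    Real.sqrt l * ∑ m ∈ Ioc (a / l) (b / l), Real.sqrt ((m : ℝ) / rd m) ≤
      (2 * C + 1) * ((2 : ℝ) ^ (i + 2)) ^ (1 / 2 + ε) := by
  obtain ⟨D, rfl⟩ := Nat.exists_eq_add_of_le h2
  have hD : D ^ 2 ≤ a := by
    have h5 : (D : ℝ) ≤ (2 : ℝ) ^ ((i : ℝ) / 2) := by
      have : ((a + D : ℕ) : ℝ) - a = D := by push_cast; ring
      rw [this] at h4
      exact h4
    have h6 : ((D : ℝ)) ^ 2 ≤ (2 : ℝ) ^ i := by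
      calc ((D : ℝ)) ^ 2 ≤ ((2 : ℝ) ^ ((i : ℝ) / 2)) ^ 2 := by gcongr
        _ = (2 : ℝ) ^ i := by
          rw [← Real.rpow_natCast, ← Real.rpow_mul (by norm_num), ← Real.rpow_natCast]
          congr 1
          push_cast
          ring
    have h7 : D ^ 2 ≤ 2 ^ i := by exact_mod_cast h6
    omega
  have hX : (1 : ℝ) ≤ (2 : ℝ) ^ (i + 2) := one_le_pow₀ (by norm_num)
  have hbR : ((a + D : ℕ) : ℝ) ≤ (2 : ℝ) ^ (i + 2) := by exact_mod_cast h3
  rcases Nat.eq_zero_or_pos (a / l) with h0 | h0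
  · have h5 : a < l := by
      by_contra hc
      push Not at hc
      have := Nat.div_pos hc hl
      omega
    have h6 : D ≤ a := by
      rcases Nat.eq_zero_or_pos D with h | h
      · omega
      · nlinarith
    have h7 : (a + D) / l ≤ 1 := by
      have : (a + D) / l < 2 := by
        rw [Nat.div_lt_iff_lt_mul hl]; omega
      omega
    have h8 : Ioc (a / l) ((a + D) / l) ⊆ {1} := by
      intro m hm
      rw [mem_Ioc] at hm
      rw [mem_singleton]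
      omega
    have h9 : ∑ m ∈ Ioc (a / l) ((a + D) / l), Real.sqrt ((m : ℝ) / rd m) ≤ 1 := by
      refine (Finset.sum_le_sum_of_subset_of_nonneg h8 fun _ _ _ => Real.sqrt_nonneg _).trans ?_
      rw [sum_singleton]
      simp [rd]
    have h10 : Real.sqrt l ≤ ((2 : ℝ) ^ (i + 2)) ^ (1 / 2 + ε) := by
      rw [Real.sqrt_eq_rpow]
      have : (l : ℝ) ≤ (2 : ℝ) ^ (i + 2) := le_trans (by exact_mod_cast hlb) hbR
      calc (l : ℝ) ^ (1 / 2 : ℝ) ≤ ((2 : ℝ) ^ (i + 2)) ^ (1 / 2 : ℝ) := by gcongr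
        _ ≤ _ := Real.rpow_le_rpow_of_exponent_le hX (by linarith)
    calc Real.sqrt l * ∑ m ∈ Ioc (a / l) ((a + D) / l), Real.sqrt ((m : ℝ) / rd m)
        ≤ ((2 : ℝ) ^ (i + 2)) ^ (1 / 2 + ε) * 1 := by gcongr
      _ ≤ (2 * C + 1) * ((2 : ℝ) ^ (i + 2)) ^ (1 / 2 + ε) := by
          rw [mul_one]
          exact le_mul_of_one_le_left (by positivity) (by linarith)
  · set y := a / l with hy
    set s := Nat.sqrt y with hs
    have hs1 : s * s ≤ y := Nat.sqrt_le y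
    have hs2 : y < (s + 1) * (s + 1) := Nat.lt_succ_sqrt y
    have hs0 : 1 ≤ s := by
      by_contra hc
      have : s = 0 := by omega
      rw [this] at hs2
      omega
    have h5 : D / l ≤ s := by
      have h6 : D < l * (s + 1) := by
        have h7 : a < l * (y + 1) := by
          rw [hy]; exact Nat.lt_mul_div_succ a hl
        have h8 : D ^ 2 < (l * (s + 1)) ^ 2 := by
          calc D ^ 2 ≤ a := hD
            _ < l * (y + 1) := h7
            _ ≤ l * ((s + 1) * (s + 1)) := Nat.mul_le_mul_left _ (by omega)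
            _ ≤ l * l * ((s + 1) * (s + 1)) := Nat.mul_le_mul_right _ (Nat.le_mul_of_pos_right _ hl)
            _ = (l * (s + 1)) ^ 2 := by ring
        exact lt_of_pow_lt_pow_left₀ 2 (Nat.zero_le _) h8
      have : D / l < s + 1 := Nat.div_lt_of_lt_mul h6
      omega
    have h6 : (a + D) / l ≤ y + 2 * s := by
      have h7 : (a + D) / l ≤ a / l + D / l + 1 := by
        rw [Nat.add_div hl]
        split_ifs <;> omega
      omega
    have h7 : Ioc y ((a + D) / l) ⊆ Ioc y (y + s) ∪ Ioc (y + s) (y + s + s) := by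
      intro m hm
      rw [mem_Ioc] at hm
      rw [mem_union, mem_Ioc, mem_Ioc]
      omega
    have h8 : ∑ m ∈ Ioc y ((a + D) / l), Real.sqrt ((m : ℝ) / rd m) ≤ 2 * C * (y : ℝ) ^ (1 / 2 + ε) := by
      refine (Finset.sum_le_sum_of_subset_of_nonneg h7 fun _ _ _ => Real.sqrt_nonneg _).trans ?_
      rw [Finset.sum_union (Finset.disjoint_left.2 (by
        intro m h h'
        rw [mem_Ioc] at h h'
        omega))]
      have h9 := hC y y s h0 le_rfl (by omega) (by rw [sq]; exact hs1)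
      have h10 := hC y (y + s) s h0 (by omega) (by nlinarith) (by rw [sq]; exact hs1)
      linarith
    have hyR : (0 : ℝ) < y := by exact_mod_cast h0
    have hlR : (0 : ℝ) < l := by exact_mod_cast hl
    have h11 : (l : ℝ) * y ≤ (2 : ℝ) ^ (i + 2) := by
      have : l * y ≤ a + D := (Nat.mul_div_le a l).trans (by omega)
      exact le_trans (by exact_mod_cast this) hbR
    have h12 : (y : ℝ) ≤ (2 : ℝ) ^ (i + 2) := by
      have : (1 : ℝ) ≤ l := by exact_mod_cast hl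
      nlinarith
    calc Real.sqrt l * ∑ m ∈ Ioc y ((a + D) / l), Real.sqrt ((m : ℝ) / rd m)
        ≤ Real.sqrt l * (2 * C * (y : ℝ) ^ (1 / 2 + ε)) := by gcongr
      _ = 2 * C * ((l : ℝ) * y) ^ (1 / 2 : ℝ) * (y : ℝ) ^ ε := by
          rw [Real.sqrt_eq_rpow, Real.rpow_add hyR, Real.mul_rpow hlR.le hyR.le]
          ring
      _ ≤ 2 * C * ((2 : ℝ) ^ (i + 2)) ^ (1 / 2 : ℝ) * ((2 : ℝ) ^ (i + 2)) ^ ε := by gcongr
      _ = 2 * C * ((2 : ℝ) ^ (i + 2)) ^ (1 / 2 + ε) := by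
          rw [Real.rpow_add (by positivity)]; ring
      _ ≤ (2 * C + 1) * ((2 : ℝ) ^ (i + 2)) ^ (1 / 2 + ε) := by
          gcongr; linarith

theorem t_RCL (hRC : S_RC) (hLN : S_LN) : S_RCL := by
  intro ε k hε
  obtain ⟨C, hC1, hC⟩ := hRC (ε / 4) (by positivity)
  obtain ⟨J1, hJ1⟩ := hLN (ε / 4) k (by positivity)
  obtain ⟨M, hM⟩ := exists_nat_gt (Real.logb 2 ((2 * C + 1) * (2 : ℝ) ^ (1 + ε / 2)) / (ε / 2))
  refine ⟨max J1 (2 * M + 10), ?_⟩
  intro j hj i a b hij ha hab hb hba L hL hLc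
  have hjJ : J1 ≤ j := le_trans (le_max_left _ _) hj
  have hjM : 2 * M + 10 ≤ j := le_trans (le_max_right _ _) hj
  have hiM : M ≤ i := by omega
  set Λ := (Icc 1 (2 ^ (i + 3))).filter (fun n => ∀ p : ℕ, p.Prime → p ∣ n → p ∈ L) with hΛ
  have hcard : (Λ.card : ℝ) ≤ (2 : ℝ) ^ (ε / 4 * i) := hJ1 j hjJ i hij L hL hLc
  have hmaps : ∀ n ∈ (Ioc a b).filter (Rg j), pt (· ∈ L) n ∈ Λ := by
    intro n hn
    rw [mem_filter, mem_Ioc] at hn
    have hn0 : n ≠ 0 := hn.2.1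
    rw [hΛ, mem_filter, mem_Icc]
    refine ⟨⟨pt_pos _ _, (pt_le _ hn0).trans ?_⟩, ?_⟩
    · have : 2 ^ (i + 2) ≤ 2 ^ (i + 3) := Nat.pow_le_pow_right (by norm_num) (by omega)
      omega
    · intro p hp hpn
      exact ((mem_pt _ _ _).1 (Nat.mem_primeFactors.2 ⟨hp, hpn, (pt_pos _ _).ne'⟩)).2
  rw [← Finset.sum_fiberwise_of_maps_to hmaps]
  have hfib : ∀ l ∈ Λ, ∑ n ∈ ((Ioc a b).filter (Rg j)).filter (fun n => pt (· ∈ L) n = l),
      Real.sqrt (QL L n) ≤ (2 * C + 1) * ((2 : ℝ) ^ (i + 2)) ^ (1 / 2 + ε / 4) := by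
    intro l hl
    rw [hΛ, mem_filter, mem_Icc] at hl
    by_cases hlb : l ≤ b
    swap
    · rw [Finset.filter_eq_empty_iff.2, sum_empty]
      · positivity
      · intro n hn hnl
        rw [mem_filter, mem_Ioc] at hn
        have := pt_le (· ∈ L) hn.2.1
        omega
    refine le_trans ?_ (rcl_fibre hC1 (by positivity) hC ha hab hb hba hl.1.1 hlb)
    have h1 : ∀ n ∈ ((Ioc a b).filter (Rg j)).filter (fun n => pt (· ∈ L) n = l),
        Real.sqrt (QL L n) = Real.sqrt l *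
          Real.sqrt (((pt (fun p => ¬ p ∈ L) n : ℕ) : ℝ) / rd (pt (fun p => ¬ p ∈ L) n)) := by
      intro n hn
      rw [mem_filter, mem_filter, mem_Ioc] at hn
      rw [QL_split L hn.1.2.1, hn.2, Real.sqrt_mul (Nat.cast_nonneg _)]
    rw [Finset.sum_congr rfl h1, ← Finset.mul_sum]
    refine mul_le_mul_of_nonneg_left ?_ (Real.sqrt_nonneg _)
    have hinj : Set.InjOn (fun n => pt (fun p => ¬ p ∈ L) n)
        (((Ioc a b).filter (Rg j)).filter (fun n => pt (· ∈ L) n = l) : Finset ℕ) := by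
      intro n hn n' hn' h
      rw [Finset.mem_coe, mem_filter, mem_filter] at hn hn'
      rw [← pt_mul (· ∈ L) hn.1.2.1, ← pt_mul (· ∈ L) hn'.1.2.1, hn.2, hn'.2]
      exact congrArg _ h
    rw [← Finset.sum_image (f := fun m : ℕ => Real.sqrt ((m : ℝ) / rd m)) hinj]
    refine Finset.sum_le_sum_of_subset_of_nonneg ?_ fun _ _ _ => Real.sqrt_nonneg _
    intro m hm
    rw [mem_image] at hm
    obtain ⟨n, hn, rfl⟩ := hm
    rw [mem_filter, mem_filter, mem_Ioc] at hn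
    have h2 := pt_mul (· ∈ L) hn.1.2.1
    rw [hn.2] at h2
    rw [mem_Ioc]
    have hl0 : 0 < l := hl.1.1
    constructor
    · rw [Nat.div_lt_iff_lt_mul hl0, mul_comm, h2]
      exact hn.1.1.1
    · rw [Nat.le_div_iff_mul_le hl0, mul_comm, h2]
      exact hn.1.1.2
  refine (Finset.sum_le_card_nsmul _ _ _ hfib).trans ?_
  rw [nsmul_eq_mul]
  have hi : (M : ℝ) ≤ i := by exact_mod_cast hiM
  have hfin : (2 * C + 1) * (2 : ℝ) ^ (1 + ε / 2) ≤ (2 : ℝ) ^ (ε / 2 * i) := by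
    have h1 : 0 < (2 * C + 1) * (2 : ℝ) ^ (1 + ε / 2) := by positivity
    rw [← Real.logb_le_iff_le_rpow (by norm_num) h1]
    rw [div_lt_iff₀ (by positivity)] at hM
    nlinarith
  calc (Λ.card : ℝ) * ((2 * C + 1) * ((2 : ℝ) ^ (i + 2)) ^ (1 / 2 + ε / 4))
      ≤ (2 : ℝ) ^ (ε / 4 * i) * ((2 * C + 1) * ((2 : ℝ) ^ (i + 2)) ^ (1 / 2 + ε / 4)) := by gcongr
    _ = ((2 * C + 1) * (2 : ℝ) ^ (1 + ε / 2)) * (2 : ℝ) ^ ((1 / 2 + ε / 2) * i) := by
        rw [← Real.rpow_natCast 2 (i + 2), ← Real.rpow_mul (by norm_num)]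
        have h1 : (2 : ℝ) ^ (((i + 2 : ℕ) : ℝ) * (1 / 2 + ε / 4)) =
            (2 : ℝ) ^ (1 + ε / 2) * (2 : ℝ) ^ ((1 / 2 + ε / 4) * i) := by
          rw [← Real.rpow_add (by norm_num)]
          congr 1
          push_cast
          ring
        have h2 : (2 : ℝ) ^ ((1 / 2 + ε / 2) * i) =
            (2 : ℝ) ^ (ε / 4 * i) * (2 : ℝ) ^ ((1 / 2 + ε / 4) * i) := by
          rw [← Real.rpow_add (by norm_num)]
          congr 1
          ring
        rw [h1, h2]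
        ring
    _ ≤ (2 : ℝ) ^ (ε / 2 * i) * (2 : ℝ) ^ ((1 / 2 + ε / 2) * i) := by gcongr
    _ = (2 : ℝ) ^ ((1 / 2 + ε) * (i : ℝ)) := by
        rw [← Real.rpow_add (by norm_num)]
        congr 1
        ring

end Pool.Agent.Q256.KZ
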