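import Pool.Agent.Q256.KZ.RCH

/-! Project KZ: the refined form of the counting inequality. -/

set_option autoImplicit false

namespace Pool.Agent.Q256.KZ

open Finset
open scoped Classical
open Pool.Agent.Q18.KZ

/-- the predicate: `p ∈ L` or `p² ∣ n` -/
def Pw (L : Finset ℕ) (n p : ℕ) : Prop := p ∈ L ∨ 2 ≤ n.factorization p

/-- the `L`-part times the powerful part -/
noncomputable def lp2 (L : Finset ℕ) (n : ℕ) : ℕ := pt (Pw L n) n

lemma QL_lp2 (L : Finset ℕ) {n : ℕ} (hn : n ≠ 0) : QL L (lp2 L n) = QL L n := by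
  conv_rhs => rw [← pt_mul (Pw L n) hn, QL_mul L (pt_coprime _ _)]
  have h : QL L (pt (fun p => ¬ Pw L n p) n) = 1 := by
    rw [QL_eq]
    apply Finset.prod_eq_one
    intro p hp
    have h1 := (mem_pt _ _ _).1 hp
    have h2 : p ∉ L := fun h => h1.2 (Or.inl h)
    have h3 : ¬ 2 ≤ n.factorization p := fun h => h1.2 (Or.inr h)
    have h4 : (pt (fun p => ¬ Pw L n p) n).factorization p = n.factorization p := pt_fac_of _ _ h1.2
    rw [qf, if_neg h2, h4]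
    have h5 : n.factorization p - 1 = 0 := by omega
    rw [h5, pow_zero]
  rw [h, mul_one]
  rfl

/-- the reduced integers -/
def Rd (L : Finset ℕ) (m : ℕ) : Prop := ∀ p ∈ m.primeFactors, p ∈ L ∨ 2 ≤ m.factorization p

lemma Rd_lp2 (L : Finset ℕ) (n : ℕ) : Rd L (lp2 L n) := by
  intro p hp
  have h1 := (mem_pt _ _ _).1 hp
  have h2 : (lp2 L n).factorization p = n.factorization p := pt_fac_of _ _ h1.2
  rw [h2]
  exact h1.2

/-- the part prime to `L` of a reduced integer has a small radical -/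
lemma Rd_rad {L : Finset ℕ} {m : ℕ} (hm : m ≠ 0) (h : Rd L m) :
    (rd (pt (fun p => ¬ p ∈ L) m) : ℝ) ≤ QL L m := by
  rw [QL_split L hm]
  set s := pt (fun p => ¬ p ∈ L) m with hs
  have hs0 : s ≠ 0 := (pt_pos _ _).ne'
  have h1 : rd s * rd s ≤ s := by
    conv_rhs => rw [← Nat.prod_factorization_pow_eq_self hs0]
    rw [Finsupp.prod, Nat.support_factorization, rd, ← Finset.prod_mul_distrib]
    refine Finset.prod_le_prod' fun p hp => ?_
    have h2 := (mem_pt _ _ _).1 hp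
    have h3 : s.factorization p = m.factorization p := pt_fac_of _ _ h2.2
    have h4 : 2 ≤ m.factorization p := (h p h2.1).resolve_left h2.2
    rw [h3, ← sq]
    exact Nat.pow_le_pow_right (Nat.prime_of_mem_primeFactors h2.1).pos h4
  have h2 : (0 : ℝ) < rd s := by exact_mod_cast rd_pos s
  have h3 : (rd s : ℝ) ≤ s / rd s := by
    rw [le_div_iff₀ h2]
    exact_mod_cast h1
  have h4 : (1 : ℝ) ≤ pt (· ∈ L) m := by exact_mod_cast pt_pos _ _
  calc (rd s : ℝ) ≤ 1 * (s / rd s) := by linarith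
    _ ≤ _ := by gcongr

/-- number of the reduced integers -/
lemma card_Rd {L : Finset ℕ} {N1 N : ℕ} {Z K1 K2 : ℝ} (hN : N ≤ N1)
    (h1 : (((Icc 1 N1).filter (fun n => ∀ p : ℕ, p.Prime → p ∣ n → p ∈ L)).card : ℝ) ≤ K1)
    (h2 : (((Icc 1 N).filter (fun n => (rd n : ℝ) ≤ Z)).card : ℝ) ≤ K2) :
    (((Icc 1 N).filter (fun m => Rd L m ∧ QL L m ≤ Z)).card : ℝ) ≤ K1 * K2 := by
  have h3 : ((Icc 1 N).filter (fun m => Rd L m ∧ QL L m ≤ Z)).card ≤
      (((Icc 1 N1).filter (fun n => ∀ p : ℕ, p.Prime → p ∣ n → p ∈ L)) ×ˢ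
        ((Icc 1 N).filter (fun n => (rd n : ℝ) ≤ Z))).card := by
    apply Finset.card_le_card_of_injOn (fun m => (pt (· ∈ L) m, pt (fun p => ¬ p ∈ L) m))
    · intro m hm
      rw [Finset.mem_coe, mem_filter, mem_Icc] at hm
      have hm0 : m ≠ 0 := by omega
      rw [Finset.mem_coe, mem_product, mem_filter, mem_filter, mem_Icc, mem_Icc]
      refine ⟨⟨⟨pt_pos _ _, (pt_le _ hm0).trans (by omega)⟩, ?_⟩,
        ⟨pt_pos _ _, (pt_le _ hm0).trans (by omega)⟩, (Rd_rad hm0 hm.2.1).trans hm.2.2⟩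
      intro p hp hpn
      exact ((mem_pt _ _ _).1 (Nat.mem_primeFactors.2 ⟨hp, hpn, (pt_pos _ _).ne'⟩)).2
    · intro m hm m' hm' h
      rw [Finset.mem_coe, mem_filter, mem_Icc] at hm hm'
      rw [← pt_mul (· ∈ L) (show m ≠ 0 by omega), ← pt_mul (· ∈ L) (show m' ≠ 0 by omega)]
      exact congrArg₂ (· * ·) (congrArg Prod.fst h) (congrArg Prod.snd h)
  rw [card_product] at h3
  calc _ ≤ ((((Icc 1 N1).filter (fun n => ∀ p : ℕ, p.Prime → p ∣ n → p ∈ L)).card *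
        ((Icc 1 N).filter (fun n => (rd n : ℝ) ≤ Z)).card : ℕ) : ℝ) := by exact_mod_cast h3
    _ ≤ K1 * K2 := by
      rw [Nat.cast_mul]
      exact mul_le_mul h1 h2 (Nat.cast_nonneg _) (le_trans (Nat.cast_nonneg _) h1)

/-- multiples in an interval -/
lemma card_mult (a b m : ℕ) (hab : a ≤ b) (hm : 1 ≤ m) (A : Finset ℕ)
    (hA : ∀ n ∈ A, a < n ∧ n ≤ b ∧ m ∣ n) : (A.card : ℝ) ≤ ((b : ℝ) - a) / m + 1 := by
  have h1 : A.card ≤ (Ioc (a / m) (b / m)).card := by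
    apply Finset.card_le_card_of_injOn (fun n => n / m)
    · intro n hn
      obtain ⟨h1, h2, c, rfl⟩ := hA n hn
      rw [Finset.mem_coe, mem_Ioc]
      show a / m < m * c / m ∧ m * c / m ≤ b / m
      rw [Nat.mul_div_cancel_left _ hm]
      constructor
      · rw [Nat.div_lt_iff_lt_mul hm, mul_comm]; exact h1
      · rw [Nat.le_div_iff_mul_le hm, mul_comm]; exact h2
    · intro n hn n' hn' h
      obtain ⟨_, _, c, rfl⟩ := hA n hn
      obtain ⟨_, _, c', rfl⟩ := hA n' hn'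
      simp only [Nat.mul_div_cancel_left _ hm] at h
      rw [h]
  rw [Nat.card_Ioc] at h1
  have hm0 : (0 : ℝ) < m := by exact_mod_cast hm
  have h2 : a / m ≤ b / m := Nat.div_le_div_right hab
  have h3 : (A.card : ℝ) ≤ ((b / m : ℕ) : ℝ) - ((a / m : ℕ) : ℝ) := by
    rw [← Nat.cast_sub h2]
    exact_mod_cast h1
  have h4 : ((b / m : ℕ) : ℝ) ≤ b / m := Nat.cast_div_le
  have h5 : (a : ℝ) / m ≤ ((a / m : ℕ) : ℝ) + 1 := by
    rw [div_le_iff₀ hm0]
    have := (Nat.lt_mul_div_succ a hm).le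
    have h6 : (a : ℝ) ≤ ((m * (a / m + 1) : ℕ) : ℝ) := by exact_mod_cast this
    push_cast at h6
    linarith
  rw [sub_div]
  linarith

theorem t_RCS (hRCL : S_RCL) (hLN : S_LN) (hRAD : S_RAD) : S_RCS := by
  intro ε θ k hε hθ hθ1
  obtain ⟨e1, he0, he1, he2⟩ : ∃ e1 : ℝ, 0 < e1 ∧ e1 ≤ ε / 4 ∧ e1 ≤ θ / 40 :=
    ⟨min (ε / 4) (θ / 40), lt_min (by positivity) (by positivity), min_le_left _ _, min_le_right _ _⟩
  obtain ⟨J1, hJ1⟩ := hRCL e1 k he0
  obtain ⟨J2, hJ2⟩ := hLN e1 k he0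
  obtain ⟨J3, hJ3⟩ := t_RCH e1 k he0
  obtain ⟨C, hC1, hC⟩ := hRAD e1 he0
  obtain ⟨M1, hM1⟩ := exists_nat_gt (1 / ε)
  obtain ⟨M2, hM2⟩ := exists_nat_gt (Real.logb 2 (2 * C * (2 : ℝ) ^ (2 * e1)) / (1 / 10))
  refine ⟨J1 + J2 + J3 + 2 * M1 + 2 * M2 + 10, ?_⟩
  intro j hj i a b hij ha hab hb hba L hL hLc
  have hi1 : 1 ≤ i := by omega
  have hi1R : (1 : ℝ) ≤ i := by exact_mod_cast hi1
  have hiM1 : (M1 : ℝ) ≤ i := by
    have : M1 ≤ i := by omega
    exact_mod_cast this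
  have hiM2 : (M2 : ℝ) ≤ i := by
    have : M2 ≤ i := by omega
    exact_mod_cast this
  have hεi : 1 ≤ ε * i := by
    rw [div_lt_iff₀ hε] at hM1
    nlinarith
  have hbaR : (0 : ℝ) ≤ (b : ℝ) - a := by
    have : (a : ℝ) ≤ b := by exact_mod_cast hab
    linarith
  set A := (Ioc a b).filter (Rg j) with hA
  set Z : ℝ := (2 : ℝ) ^ ((i : ℝ) / 4) with hZ
  have hZ0 : 0 < Z := by positivity
  have hAmem : ∀ n ∈ A, a < n ∧ n ≤ b ∧ n ≠ 0 ∧ Rg j n := by
    intro n hn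
    rw [hA, mem_filter, mem_Ioc] at hn
    exact ⟨hn.1.1, hn.1.2, hn.2.1, hn.2⟩
  -- the large part
  have hP1 : ∑ n ∈ A.filter (fun n => Z < QL L n), (QL L n) ^ (1 / 2 - θ) ≤
      (2 : ℝ) ^ ((1 / 2 - θ / 5) * (i : ℝ)) := by
    have h1 : ∀ n ∈ A.filter (fun n => Z < QL L n), (QL L n) ^ (1 / 2 - θ) ≤
        (2 : ℝ) ^ (-(θ / 4) * (i : ℝ)) * Real.sqrt (QL L n) := by
      intro n hn
      rw [mem_filter] at hn
      have hq := QL_pos L n
      rw [sub_eq_add_neg, Real.rpow_add hq, Real.sqrt_eq_rpow, mul_comm]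
      refine mul_le_mul_of_nonneg_right ?_ (by positivity)
      have h2 : Z ^ θ ≤ QL L n ^ θ := Real.rpow_le_rpow hZ0.le hn.2.le hθ.le
      have h3 : (2 : ℝ) ^ (-(θ / 4) * (i : ℝ)) = (Z ^ θ)⁻¹ := by
        rw [hZ, ← Real.rpow_mul (by norm_num), ← Real.rpow_neg (by norm_num)]
        congr 1
        ring
      rw [h3, Real.rpow_neg hq.le]
      exact inv_anti₀ (by positivity) h2
    refine (Finset.sum_le_sum h1).trans ?_
    rw [← Finset.mul_sum]
    have h2 : ∑ n ∈ A.filter (fun n => Z < QL L n), Real.sqrt (QL L n) ≤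
        (2 : ℝ) ^ ((1 / 2 + e1) * (i : ℝ)) :=
      (Finset.sum_le_sum_of_subset_of_nonneg (Finset.filter_subset _ _)
        fun _ _ _ => Real.sqrt_nonneg _).trans
        (hJ1 j (by omega) i a b hij ha hab hb hba L hL hLc)
    calc _ ≤ (2 : ℝ) ^ (-(θ / 4) * (i : ℝ)) * (2 : ℝ) ^ ((1 / 2 + e1) * (i : ℝ)) := by gcongr
      _ = (2 : ℝ) ^ (-(θ / 4) * (i : ℝ) + (1 / 2 + e1) * (i : ℝ)) := by
          rw [Real.rpow_add (by norm_num)]
      _ ≤ _ := by
          apply Real.rpow_le_rpow_of_exponent_le (by norm_num)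
          have : (-(θ / 4) + (1 / 2 + e1)) * (i : ℝ) ≤ (1 / 2 - θ / 5) * (i : ℝ) := by
            apply mul_le_mul_of_nonneg_right _ (by linarith)
            linarith
          linarith
  -- the small part
  set B := A.filter (fun n => ¬ Z < QL L n) with hB
  set Ms := (Icc 1 (2 ^ (i + 2))).filter (fun m => Rg j m ∧ Rd L m ∧ QL L m ≤ Z) with hMs
  have hBmem : ∀ n ∈ B, lp2 L n ∈ Ms := by
    intro n hn
    rw [hB, mem_filter] at hn
    obtain ⟨h1, h2, h3, h4⟩ := hAmem n hn.1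
    have h5 : lp2 L n ∣ n := pt_dvd _ h3
    have h6 : lp2 L n ≤ n := pt_le _ h3
    rw [hMs, mem_filter, mem_Icc, QL_lp2 L h3]
    refine ⟨⟨pt_pos _ _, by omega⟩, ⟨(pt_pos _ _).ne', fun p hp hpn => h4.2 p hp (hpn.trans h5)⟩,
      Rd_lp2 L n, not_lt.1 hn.2⟩
  have hP2 : ∑ n ∈ B, (QL L n) ^ (1 / 2 - θ) ≤
      ((b : ℝ) - a) * ∑ m ∈ Ms, Real.sqrt (QL L m) / m + ∑ m ∈ Ms, Real.sqrt (QL L m) := by
    have h1 : ∀ n ∈ B, (QL L n) ^ (1 / 2 - θ) ≤ Real.sqrt (QL L (lp2 L n)) := by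
      intro n hn
      rw [hB, mem_filter] at hn
      rw [QL_lp2 L (hAmem n hn.1).2.2.1, Real.sqrt_eq_rpow]
      exact Real.rpow_le_rpow_of_exponent_le (one_le_QL L n) (by linarith)
    refine (Finset.sum_le_sum h1).trans ?_
    rw [← Finset.sum_fiberwise_of_maps_to hBmem, Finset.mul_sum, ← Finset.sum_add_distrib]
    apply Finset.sum_le_sum
    intro m hm
    rw [hMs, mem_filter, mem_Icc] at hm
    have h2 : ∑ n ∈ B.filter (fun n => lp2 L n = m), Real.sqrt (QL L (lp2 L n)) =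
        ((B.filter (fun n => lp2 L n = m)).card : ℝ) * Real.sqrt (QL L m) := by
      rw [← nsmul_eq_mul, ← Finset.sum_const]
      apply Finset.sum_congr rfl
      intro n hn
      rw [(mem_filter.1 hn).2]
    rw [h2]
    have h3 := card_mult a b m hab hm.1.1 (B.filter (fun n => lp2 L n = m)) (by
      intro n hn
      rw [mem_filter, hB, mem_filter] at hn
      obtain ⟨h4, h5, h6, _⟩ := hAmem n hn.1.1
      exact ⟨h4, h5, by rw [← hn.2]; exact pt_dvd _ h6⟩)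
    calc _ ≤ (((b : ℝ) - a) / m + 1) * Real.sqrt (QL L m) := by gcongr
      _ = _ := by ring
  have hP2a : ∑ m ∈ Ms, Real.sqrt (QL L m) / m ≤ (2 : ℝ) ^ (ε * i) := by
    have h1 := hJ3 j (by omega) (i + 2) (i + 2) (by omega) le_rfl L hL
      (hLc.trans (by push_cast; gcongr; linarith))
    have h2 : ∑ m ∈ Ms, Real.sqrt (QL L m) / m ≤
        ∑ n ∈ (Icc 1 (2 ^ (i + 2))).filter (Rg j), Real.sqrt (QL L n) / n := by
      apply Finset.sum_le_sum_of_subset_of_nonneg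
      · intro m hm
        rw [hMs, mem_filter] at hm
        rw [mem_filter]
        exact ⟨hm.1, hm.2.1⟩
      · intro _ _ _
        positivity
    refine h2.trans (h1.trans ?_)
    apply Real.rpow_le_rpow_of_exponent_le (by norm_num)
    push_cast
    have h3 : e1 * ((i : ℝ) + 2) ≤ ε / 4 * (3 * i) := by
      apply mul_le_mul he1 (by linarith) (by linarith) (by positivity)
    nlinarith
  have hP2b : 2 * ∑ m ∈ Ms, Real.sqrt (QL L m) ≤ (2 : ℝ) ^ ((1 / 2 - θ / 5) * (i : ℝ)) := by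
    have h1 : ∀ m ∈ Ms, Real.sqrt (QL L m) ≤ (2 : ℝ) ^ ((i : ℝ) / 8) := by
      intro m hm
      rw [hMs, mem_filter] at hm
      have h2 : (2 : ℝ) ^ ((i : ℝ) / 8) = Real.sqrt Z := by
        rw [hZ, Real.sqrt_eq_rpow, ← Real.rpow_mul (by norm_num)]
        congr 1
        ring
      rw [h2]
      exact Real.sqrt_le_sqrt hm.2.2.2
    have h2 := hJ2 j (by omega) i hij L hL hLc
    have h3 := hC (2 ^ (i + 2)) Z (Nat.one_le_two_pow) hZ0.le
    have h4 := card_Rd (L := L) (N1 := 2 ^ (i + 3)) (N := 2 ^ (i + 2)) (Z := Z)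
      (Nat.pow_le_pow_right (by norm_num) (by omega)) h2 h3
    have h5 : (Ms.card : ℝ) ≤ (2 : ℝ) ^ (e1 * i) * (C * Z * ((2 ^ (i + 2) : ℕ) : ℝ) ^ e1) := by
      refine le_trans ?_ h4
      norm_cast
      apply Finset.card_le_card
      intro m hm
      rw [hMs, mem_filter] at hm
      rw [mem_filter]
      exact ⟨hm.1, hm.2.2⟩
    have h6 : ∑ m ∈ Ms, Real.sqrt (QL L m) ≤
        ((2 : ℝ) ^ (e1 * i) * (C * Z * ((2 ^ (i + 2) : ℕ) : ℝ) ^ e1)) * (2 : ℝ) ^ ((i : ℝ) / 8) := by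
      refine (Finset.sum_le_card_nsmul _ _ _ h1).trans ?_
      rw [nsmul_eq_mul]
      gcongr
    have h7 : ((2 ^ (i + 2) : ℕ) : ℝ) ^ e1 = (2 : ℝ) ^ (2 * e1) * (2 : ℝ) ^ (e1 * i) := by
      rw [← Real.rpow_add (by norm_num)]
      push_cast
      rw [← Real.rpow_natCast, ← Real.rpow_mul (by norm_num)]
      congr 1
      push_cast
      ring
    have h8 : 2 * C * (2 : ℝ) ^ (2 * e1) ≤ (2 : ℝ) ^ (1 / 10 * (i : ℝ)) := by
      have h9 : 0 < 2 * C * (2 : ℝ) ^ (2 * e1) := by positivity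
      rw [← Real.logb_le_iff_le_rpow (by norm_num) h9]
      rw [div_lt_iff₀ (by norm_num)] at hM2
      linarith
    calc 2 * ∑ m ∈ Ms, Real.sqrt (QL L m)
        ≤ 2 * (((2 : ℝ) ^ (e1 * i) * (C * Z * ((2 ^ (i + 2) : ℕ) : ℝ) ^ e1)) *
          (2 : ℝ) ^ ((i : ℝ) / 8)) := by gcongr
      _ = (2 * C * (2 : ℝ) ^ (2 * e1)) * (2 : ℝ) ^ (2 * e1 * i + (i : ℝ) / 4 + (i : ℝ) / 8) := by
          rw [h7, hZ, Real.rpow_add (by norm_num), Real.rpow_add (by norm_num),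
            show 2 * e1 * (i : ℝ) = e1 * i + e1 * i by ring, Real.rpow_add (by norm_num)]
          ring
      _ ≤ (2 : ℝ) ^ (1 / 10 * (i : ℝ)) * (2 : ℝ) ^ (2 * e1 * i + (i : ℝ) / 4 + (i : ℝ) / 8) := by
          gcongr
      _ = (2 : ℝ) ^ (1 / 10 * (i : ℝ) + (2 * e1 * i + (i : ℝ) / 4 + (i : ℝ) / 8)) := by
          rw [← Real.rpow_add (by norm_num)]
      _ ≤ _ := by
          apply Real.rpow_le_rpow_of_exponent_le (by norm_num)
          have h10 : (1 / 10 + 2 * e1 + 1 / 4 + 1 / 8) * (i : ℝ) ≤ (1 / 2 - θ / 5) * (i : ℝ) := by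
            apply mul_le_mul_of_nonneg_right _ (by linarith)
            linarith
          linarith
  have h2e : (2 : ℝ) ≤ (2 : ℝ) ^ (ε * i) := by
    calc (2 : ℝ) = (2 : ℝ) ^ (1 : ℝ) := by rw [Real.rpow_one]
      _ ≤ _ := Real.rpow_le_rpow_of_exponent_le (by norm_num) hεi
  rw [← Finset.sum_filter_add_sum_filter_not A (fun n => Z < QL L n)]
  set W := (2 : ℝ) ^ ((1 / 2 - θ / 5) * (i : ℝ)) with hW
  have hW0 : 0 < W := by positivity
  have h11 : ((b : ℝ) - a) * ∑ m ∈ Ms, Real.sqrt (QL L m) / m ≤ ((b : ℝ) - a) * (2 : ℝ) ^ (ε * i) :=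
    mul_le_mul_of_nonneg_left hP2a hbaR
  have h12 : 2 * W ≤ (2 : ℝ) ^ (ε * i) * W := mul_le_mul_of_nonneg_right h2e hW0.le
  calc _ ≤ W + (((b : ℝ) - a) * (2 : ℝ) ^ (ε * i) + W / 2) := by
        refine add_le_add hP1 (hP2.trans (add_le_add h11 (by linarith)))
    _ ≤ (2 : ℝ) ^ (ε * i) * (((b : ℝ) - a) + W) := by
        have h13 : W + W / 2 ≤ 2 * W := by linarith
        linarith

end Pool.Agent.Q256.KZ
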