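import Pool.Agent.Q18.KZ.S1

/-! Project KZ: multiplicativity of `QL`, parts of integers. -/

set_option autoImplicit false

namespace Pool.Agent.Q256.KZ

open Finset
open scoped Classical
open Pool.Agent.Q18.KZ

/-- local factor -/
noncomputable def qf (L : Finset ℕ) (p v : ℕ) : ℝ :=
  if p ∈ L then (p : ℝ) ^ v else (p : ℝ) ^ (v - 1)

lemma QL_eq (L : Finset ℕ) (n : ℕ) :
    QL L n = ∏ p ∈ n.primeFactors, qf L p (n.factorization p) := rfl

lemma one_le_qf (L : Finset ℕ) {p : ℕ} (hp : 1 ≤ p) (v : ℕ) : 1 ≤ qf L p v := by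
  have h : (1 : ℝ) ≤ p := by exact_mod_cast hp
  unfold qf
  split_ifs
  · exact one_le_pow₀ h
  · exact one_le_pow₀ h

lemma qf_le (L : Finset ℕ) {p : ℕ} (hp : 1 ≤ p) (v : ℕ) : qf L p v ≤ (p : ℝ) ^ v := by
  have h : (1 : ℝ) ≤ p := by exact_mod_cast hp
  unfold qf
  split_ifs
  · exact le_rfl
  · exact pow_le_pow_right₀ h (Nat.sub_le _ _)

lemma one_le_QL (L : Finset ℕ) (n : ℕ) : 1 ≤ QL L n := by
  rw [QL_eq]
  refine Finset.prod_induction _ (fun x => (1 : ℝ) ≤ x) (fun a b ha hb => one_le_mul_of_one_le_of_one_le ha hb)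
    le_rfl fun p hp => one_le_qf L (Nat.prime_of_mem_primeFactors hp).one_le _

lemma QL_pos (L : Finset ℕ) (n : ℕ) : 0 < QL L n := lt_of_lt_of_le one_pos (one_le_QL L n)

lemma prod_fac {n : ℕ} (hn : n ≠ 0) : ∏ p ∈ n.primeFactors, (p : ℝ) ^ (n.factorization p) = n := by
  conv_rhs => rw [← Nat.prod_factorization_pow_eq_self hn]
  rw [Finsupp.prod, Nat.cast_prod, Nat.support_factorization]
  push_cast
  rfl

lemma QL_le (L : Finset ℕ) {n : ℕ} (hn : n ≠ 0) : QL L n ≤ n := by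
  rw [QL_eq, ← prod_fac hn]
  refine Finset.prod_le_prod (fun p hp => ?_) (fun p hp => ?_)
  · exact (lt_of_lt_of_le one_pos (one_le_qf L (Nat.prime_of_mem_primeFactors hp).one_le _)).le
  · exact qf_le L (Nat.prime_of_mem_primeFactors hp).one_le _

lemma QL_one (L : Finset ℕ) : QL L 1 = 1 := by simp [QL_eq]

lemma QL_mul (L : Finset ℕ) {m n : ℕ} (h : Nat.Coprime m n) : QL L (m * n) = QL L m * QL L n := by
  rw [QL_eq, QL_eq, QL_eq, h.primeFactors_mul, prod_union h.disjoint_primeFactors]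
  congr 1
  · refine prod_congr rfl fun p hp => ?_
    rw [Nat.factorization_eq_of_coprime_left h (Nat.mem_primeFactors_iff_mem_primeFactorsList.1 hp)]
  · refine prod_congr rfl fun p hp => ?_
    rw [Nat.factorization_eq_of_coprime_right h (Nat.mem_primeFactors_iff_mem_primeFactorsList.1 hp)]

/-- the part of `n` composed of the primes with `P` -/
noncomputable def pt (P : ℕ → Prop) (n : ℕ) : ℕ := (n.factorization.filter P).prod fun p k => p ^ k

lemma pt_fac (P : ℕ → Prop) (n : ℕ) : (pt P n).factorization = n.factorization.filter P := by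
  apply Nat.prod_pow_factorization_eq_self
  intro p hp
  rw [Finsupp.support_filter, Finset.mem_filter, Nat.support_factorization] at hp
  exact Nat.prime_of_mem_primeFactors hp.1

lemma pt_pos (P : ℕ → Prop) (n : ℕ) : 0 < pt P n := by
  unfold pt
  rw [Finsupp.prod]
  apply Finset.prod_pos
  intro p hp
  rw [Finsupp.support_filter, Finset.mem_filter, Nat.support_factorization] at hp
  exact pow_pos (Nat.prime_of_mem_primeFactors hp.1).pos _

lemma mem_pt (P : ℕ → Prop) (n p : ℕ) : p ∈ (pt P n).primeFactors ↔ p ∈ n.primeFactors ∧ P p := by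
  rw [← Nat.support_factorization, pt_fac, Finsupp.support_filter, Nat.support_factorization, mem_filter]

lemma pt_mul (P : ℕ → Prop) {n : ℕ} (hn : n ≠ 0) : pt P n * pt (fun p => ¬ P p) n = n := by
  apply Nat.eq_of_factorization_eq (mul_ne_zero (pt_pos _ _).ne' (pt_pos _ _).ne') hn
  intro p
  rw [Nat.factorization_mul (pt_pos _ _).ne' (pt_pos _ _).ne', pt_fac, pt_fac, Finsupp.add_apply,
    Finsupp.filter_apply, Finsupp.filter_apply]
  by_cases h : P p <;> simp [h]

lemma pt_coprime (P : ℕ → Prop) (n : ℕ) : Nat.Coprime (pt P n) (pt (fun p => ¬ P p) n) := by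
  rw [← Nat.disjoint_primeFactors (pt_pos _ _).ne' (pt_pos _ _).ne', Finset.disjoint_left]
  intro p hp hp'
  rw [mem_pt] at hp hp'
  exact hp'.2 hp.2

lemma pt_dvd (P : ℕ → Prop) {n : ℕ} (hn : n ≠ 0) : pt P n ∣ n := ⟨_, (pt_mul P hn).symm⟩

lemma pt_le (P : ℕ → Prop) {n : ℕ} (hn : n ≠ 0) : pt P n ≤ n :=
  Nat.le_of_dvd (Nat.pos_of_ne_zero hn) (pt_dvd P hn)

lemma pt_fac_of (P : ℕ → Prop) (n : ℕ) {p : ℕ} (hp : P p) :
    (pt P n).factorization p = n.factorization p := by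
  rw [pt_fac, Finsupp.filter_apply_pos _ _ hp]

/-- all prime factors in `L` -/
lemma QL_all {L : Finset ℕ} {n : ℕ} (hn : n ≠ 0) (h : ∀ p ∈ n.primeFactors, p ∈ L) :
    QL L n = n := by
  rw [QL_eq, ← prod_fac hn]
  refine prod_congr rfl fun p hp => ?_
  rw [qf, if_pos (h p hp)]

lemma rd_pos (n : ℕ) : 0 < rd n := Finset.prod_pos fun p hp => (Nat.prime_of_mem_primeFactors hp).pos

/-- no prime factor in `L` -/
lemma QL_none {L : Finset ℕ} {n : ℕ} (hn : n ≠ 0) (h : ∀ p ∈ n.primeFactors, p ∉ L) :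
    QL L n = n / rd n := by
  have h0 : (rd n : ℝ) ≠ 0 := by exact_mod_cast (rd_pos n).ne'
  rw [eq_div_iff h0, QL_eq, ← prod_fac hn, rd, Nat.cast_prod, ← prod_mul_distrib]
  refine prod_congr rfl fun p hp => ?_
  have h1 : 1 ≤ n.factorization p := (Nat.prime_of_mem_primeFactors hp).factorization_pos_of_dvd hn
    (Nat.dvd_of_mem_primeFactors hp)
  rw [qf, if_neg (h p hp), ← pow_succ, Nat.sub_add_cancel h1]

/-- the decomposition by `L` -/
lemma QL_split (L : Finset ℕ) {n : ℕ} (hn : n ≠ 0) :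
    QL L n = (pt (· ∈ L) n : ℝ) *
      ((pt (fun p => ¬ p ∈ L) n : ℝ) / rd (pt (fun p => ¬ p ∈ L) n)) := by
  conv_lhs => rw [← pt_mul (· ∈ L) hn, QL_mul L (pt_coprime _ _)]
  rw [QL_all (pt_pos _ _).ne', QL_none (pt_pos _ _).ne']
  · intro p hp
    exact ((mem_pt _ _ _).1 hp).2
  · intro p hp
    exact ((mem_pt _ _ _).1 hp).2

end Pool.Agent.Q256.KZ
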